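import Pool.Agent.helper95.FI.SpecA

set_option autoImplicit false

namespace Pool.Agent.FI

theorem FDU_mod (p q : ℤ) (h : p ^ 2 - 8 * q ^ 2 = -1) : False := by
  have h1 : p ^ 2 % 8 = 7 := by omega
  have h2 : p ^ 2 % 8 = (p % 8) ^ 2 % 8 := by rw [pow_two, pow_two, Int.mul_emod]
  have h3 : p % 8 = 0 ∨ p % 8 = 1 ∨ p % 8 = 2 ∨ p % 8 = 3 ∨ p % 8 = 4 ∨ p % 8 = 5 ∨ p % 8 = 6 ∨ p % 8 = 7 := by omega
  rw [h2] at h1
  rcases h3 with h | h | h | h | h | h | h | h <;> rw [h] at h1 <;> norm_num at h1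

theorem FDU_unit (p q : ℤ) (h : nn (p, q) = 1) : p ^ 2 = 8 * q ^ 2 + 1 := by
  unfold nn N8 at h
  simp only at h
  have h1 : p ^ 2 - 8 * q ^ 2 = 1 ∨ p ^ 2 - 8 * q ^ 2 = -1 := by omega
  rcases h1 with h1 | h1
  · omega
  · exact absurd h1 (fun h2 => FDU_mod p q h2)

theorem FDU_p (p q : ℤ) (h : p ^ 2 = 8 * q ^ 2 + 1) (hp : -(2 * |q|) < p) : 2 * |q| < p := by
  by_contra hc
  push Not at hc
  have h1 : |p| ≤ 2 * |q| := abs_le.2 ⟨by linarith, hc⟩
  have h2 : p ^ 2 ≤ (2 * |q|) ^ 2 := by
    rw [← sq_abs p]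
    exact pow_le_pow_left₀ (abs_nonneg _) h1 2
  rw [mul_pow, sq_abs] at h2
  nlinarith [sq_nonneg q]

theorem FDU_p3 (p q : ℤ) (h : p ^ 2 = 8 * q ^ 2 + 1) (hq : q ≠ 0) : p ≤ 3 * |q| := by
  have h1 : 1 ≤ |q| := Int.one_le_abs hq
  have h2 : p ^ 2 ≤ (3 * |q|) ^ 2 := by
    rw [mul_pow, sq_abs]
    have : 1 ≤ q ^ 2 := by
      rw [← sq_abs]; nlinarith
    linarith
  by_contra hc
  push Not at hc
  nlinarith

theorem FDU_sq {p : ℤ} (h : p ^ 2 = 1) : p = 1 ∨ p = -1 := by
  have h1 : (p - 1) * (p + 1) = 0 := by linarith [h, sq p]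
  rcases mul_eq_zero.1 h1 with h | h
  · left; linarith
  · right; linarith

theorem FDU : FDU_stmt := by
  rintro ⟨a, l⟩ ⟨p, q⟩ ⟨_, hζ⟩ hu ⟨_, hz⟩
  have hpq := FDU_unit p q hu
  simp only [mul8] at hz hζ
  have hnorm : (p * a + 8 * q * l) ^ 2 - 8 * (p * l + q * a) ^ 2 = a ^ 2 - 8 * l ^ 2 := by
    linear_combination (a ^ 2 - 8 * l ^ 2) * hpq
  set a' := p * a + 8 * q * l with ha'
  set l' := p * l + q * a with hl'
  have hA : ∀ b m : ℤ, 4 * |m| < b → 0 < b ^ 2 - 8 * m ^ 2 := by
    intro b m h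
    have h1 : (4 * |m|) ^ 2 < b ^ 2 := pow_lt_pow_left₀ h (by positivity) (by norm_num)
    rw [mul_pow, sq_abs] at h1
    nlinarith [sq_nonneg m]
  have hB : ∀ b m : ℤ, |b| < 2 * m → b ^ 2 - 8 * m ^ 2 < 0 := by
    intro b m h
    have h1 : |b| ^ 2 < (2 * m) ^ 2 := pow_lt_pow_left₀ h (abs_nonneg b) (by norm_num)
    rw [mul_pow, sq_abs] at h1
    nlinarith [sq_nonneg m]
  have hq : q = 0 := by
    by_contra hq0
    have h3 := FDU_p3 p q hpq hq0
    rcases hζ with hζ | hζ
    · have hN := hA a l hζ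
      have hz' : 4 * |l'| < a' := by
        rcases hz with hz | hz
        · exact hz
        · have := hB a' l' hz
          linarith
      obtain ⟨l1, l2⟩ := abs_lt.1 (show |l'| < |l'| + 1 by linarith)
      have e1 := le_abs_self l'
      have e2 := neg_abs_le l'
      have e3 := le_abs_self l
      have e4 := neg_abs_le l
      have ha0 : 0 < a := by linarith [abs_nonneg l]
      have ha0' : 0 < a' := by linarith [abs_nonneg l']
      have hp1 : -(2 * |q|) < p := by
        by_contra hc
        push Not at hc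
        have h5 : p * a ≤ -(2 * |q|) * a := mul_le_mul_of_nonneg_right hc ha0.le
        have h6 : q * l ≤ |q| * |l| := by
          rw [← abs_mul]; exact le_abs_self _
        have h7 : |q| * (4 * |l|) ≤ |q| * a := mul_le_mul_of_nonneg_left hζ.le (abs_nonneg q)
        nlinarith
      have h2 := FDU_p p q hpq hp1
      rcases lt_or_gt_of_ne hq0 with h | h
      · rw [abs_of_neg h] at h2 h3
        have h5 : 0 < p + 2 * q := by linarith
        have h6 : 4 * l * (p + 2 * q) < a * (p + 2 * q) := mul_lt_mul_of_pos_right (by linarith) h5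
        nlinarith
      · rw [abs_of_pos h] at h2 h3
        have h5 : 0 < p - 2 * q := by linarith
        have h6 : -(4 * l) * (p - 2 * q) < a * (p - 2 * q) := mul_lt_mul_of_pos_right (by linarith) h5
        nlinarith
    · have hN := hB a l hζ
      have hz' : |a'| < 2 * l' := by
        rcases hz with hz | hz
        · have := hA a' l' hz
          linarith
        · exact hz
      have e1 := le_abs_self a'
      have e2 := neg_abs_le a'
      have e3 := le_abs_self a
      have e4 := neg_abs_le a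
      have hl0 : 0 < l := by linarith [abs_nonneg a]
      have hl0' : 0 < l' := by linarith [abs_nonneg a']
      have hp1 : -(2 * |q|) < p := by
        by_contra hc
        push Not at hc
        have h5 : p * l ≤ -(2 * |q|) * l := mul_le_mul_of_nonneg_right hc hl0.le
        have h6 : q * a ≤ |q| * |a| := by
          rw [← abs_mul]; exact le_abs_self _
        have h7 : |q| * |a| ≤ |q| * (2 * l) := mul_le_mul_of_nonneg_left hζ.le (abs_nonneg q)
        nlinarith
      have h2 := FDU_p p q hpq hp1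
      rcases lt_or_gt_of_ne hq0 with h | h
      · rw [abs_of_neg h] at h2 h3
        have h5 : 0 < p + 2 * q := by linarith
        have h6 : a * (p + 2 * q) < 2 * l * (p + 2 * q) := mul_lt_mul_of_pos_right (by linarith) h5
        nlinarith
      · rw [abs_of_pos h] at h2 h3
        have h5 : 0 < p - 2 * q := by linarith
        have h6 : -a * (p - 2 * q) < 2 * l * (p - 2 * q) := mul_lt_mul_of_pos_right (by linarith) h5
        nlinarith
  subst hq
  have hp1 : p = 1 ∨ p = -1 := by
    have : p ^ 2 = 1 := by linarith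
    exact FDU_sq this
  rcases hp1 with hp1 | hp1
  · rw [hp1]
  · exfalso
    subst hp1
    have ea : a' = -a := by rw [ha']; ring
    have el : l' = -l := by rw [hl']; ring
    rw [ea, el, abs_neg, abs_neg] at hz
    have i1 := abs_nonneg l
    have i2 := abs_nonneg a
    have i3 := hA a l
    have i4 := hB a l
    have i5 := le_abs_self a
    have i6 := neg_abs_le a
    have i7 := le_abs_self l
    have i8 := neg_abs_le l
    rcases hζ with hζ | hζ <;> rcases hz with hz | hz <;> linarith

end Pool.Agent.FI
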